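import Mathlib

/-!
# Few elements of a box of `ℤ[√2]` are mapped into `ℚ` by a Moebius transformation
-/

set_option autoImplicit false

namespace Pool.Agent.U209.SZ

/-- the real number `a + b √2` -/
noncomputable def z (p : ℤ × ℤ) : ℝ := (p.1 : ℝ) + (p.2 : ℝ) * Real.sqrt 2

theorem lin (u v : ℚ) (h : (u : ℝ) + (v : ℝ) * Real.sqrt 2 = 0) : u = 0 ∧ v = 0 := by
  by_cases hv : v = 0
  · subst hv
    refine ⟨?_, rfl⟩
    have : (u : ℝ) = 0 := by simpa using h
    exact_mod_cast this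
  · exfalso
    have hs : Real.sqrt 2 = ((-u / v : ℚ) : ℝ) := by
      have hv' : (v : ℝ) ≠ 0 := by exact_mod_cast hv
      push_cast
      rw [eq_div_iff hv']
      linarith
    exact (Nat.Prime.irrational_sqrt Nat.prime_two) ⟨_, by rw [← hs]; norm_num⟩

theorem z_inj {p q : ℤ × ℤ} (h : z p = z q) : p = q := by
  have h1 := lin ((p.1 - q.1 : ℤ) : ℚ) ((p.2 - q.2 : ℤ) : ℚ) (by
    unfold z at h; push_cast; linarith)
  have h2 : p.1 - q.1 = 0 := by exact_mod_cast h1.1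
  have h3 : p.2 - q.2 = 0 := by exact_mod_cast h1.2
  exact Prod.ext (by omega) (by omega)

/-- the sections of the integer plane by a line -/
theorem card_line {K : ℕ} {S : Finset (ℤ × ℤ)} (hS : ∀ p ∈ S, 0 ≤ p.1 ∧ p.1 < K ∧ 0 ≤ p.2 ∧ p.2 < K)
    (h : ∀ p1 ∈ S, ∀ p2 ∈ S, ∀ p3 ∈ S,
      (p1.1 - p3.1) * (p1.2 - p2.2) - (p1.2 - p3.2) * (p1.1 - p2.1) = 0) : S.card ≤ 2 * K := by
  classical
  rcases Nat.lt_or_ge 1 S.card with h1 | h1
  · obtain ⟨p1, hp1, p2, hp2, hne⟩ := Finset.one_lt_card.mp h1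
    by_cases hb : p1.2 = p2.2
    · have ha : p1.1 ≠ p2.1 := fun ha => hne (Prod.ext ha hb)
      have hinj : Set.InjOn (fun p : ℤ × ℤ => p.1) (S : Set (ℤ × ℤ)) := by
        intro p hp q hq hpq
        have e1 := h p1 hp1 p2 hp2 p hp
        have e2 := h p1 hp1 p2 hp2 q hq
        rw [hb] at e1 e2
        simp only [sub_self, mul_zero, zero_sub, neg_eq_zero, mul_eq_zero] at e1 e2
        have f1 : p2.2 - p.2 = 0 := e1.resolve_right (sub_ne_zero.mpr ha)
        have f2 : p2.2 - q.2 = 0 := e2.resolve_right (sub_ne_zero.mpr ha)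
        exact Prod.ext hpq (by omega)
      have h2 : (S.image fun p : ℤ × ℤ => p.1) ⊆ Finset.Ico (0 : ℤ) K := by
        intro a ha
        obtain ⟨p, hp, rfl⟩ := Finset.mem_image.mp ha
        have := hS p hp
        simp only [Finset.mem_Ico]
        omega
      have h3 := Finset.card_le_card h2
      rw [Finset.card_image_of_injOn hinj, Int.card_Ico] at h3
      omega
    · have hinj : Set.InjOn (fun p : ℤ × ℤ => p.2) (S : Set (ℤ × ℤ)) := by
        intro p hp q hq hpq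
        have e1 := h p1 hp1 p2 hp2 p hp
        have e2 := h p1 hp1 p2 hp2 q hq
        simp only at hpq
        rw [hpq] at e1
        have e3 : (q.1 - p.1) * (p1.2 - p2.2) = 0 := by linarith
        have e4 : q.1 - p.1 = 0 := by
          rcases mul_eq_zero.mp e3 with e | e
          · exact e
          · exact absurd (by omega) hb
        exact Prod.ext (by omega) hpq
      have h2 : (S.image fun p : ℤ × ℤ => p.2) ⊆ Finset.Ico (0 : ℤ) K := by
        intro a ha
        obtain ⟨p, hp, rfl⟩ := Finset.mem_image.mp ha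
        have := hS p hp
        simp only [Finset.mem_Ico]
        omega
      have h3 := Finset.card_le_card h2
      rw [Finset.card_image_of_injOn hinj, Int.card_Ico] at h3
      omega
  · rcases Nat.eq_zero_or_pos S.card with h0 | h0
    · omega
    · obtain ⟨p, hp⟩ := Finset.card_pos.mp h0
      have := hS p hp
      have : 0 < (K : ℤ) := by omega
      omega

/-- the values of `z` are rational images under a Moebius transformation: quadratic equation -/
theorem quad {α β γ δ : ℝ} (hdet : α * δ - β * γ ≠ 0) {p p1 p2 p3 : ℤ × ℤ}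
    {q q1 q2 q3 : ℚ} (n : γ * z p + δ ≠ 0) (n1 : γ * z p1 + δ ≠ 0) (n2 : γ * z p2 + δ ≠ 0)
    (n3 : γ * z p3 + δ ≠ 0)
    (e : (α * z p + β) / (γ * z p + δ) = q) (e1 : (α * z p1 + β) / (γ * z p1 + δ) = q1)
    (e2 : (α * z p2 + β) / (γ * z p2 + δ) = q2) (e3 : (α * z p3 + β) / (γ * z p3 + δ) = q3)
    (h12 : p1 ≠ p2) (h13 : p1 ≠ p3) (h23 : p2 ≠ p3) :
    ((p.1 - p2.1) * (p1.1 - p3.1) + 2 * (p.2 - p2.2) * (p1.2 - p3.2)) *
        ((p.1 - p3.1) * (p1.2 - p2.2) + (p.2 - p3.2) * (p1.1 - p2.1)) =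
      ((p.1 - p3.1) * (p1.1 - p2.1) + 2 * (p.2 - p3.2) * (p1.2 - p2.2)) *
        ((p.1 - p2.1) * (p1.2 - p3.2) + (p.2 - p2.2) * (p1.1 - p3.1)) := by
  have key : ∀ {r s : ℤ × ℤ} {a b : ℚ}, γ * z r + δ ≠ 0 → γ * z s + δ ≠ 0 →
      (α * z r + β) / (γ * z r + δ) = a → (α * z s + β) / (γ * z s + δ) = b →
      ((a : ℝ) - b) * ((γ * z r + δ) * (γ * z s + δ)) = (α * δ - β * γ) * (z r - z s) := by
    intro r s a b hr hs ha hb
    rw [div_eq_iff hr] at ha
    rw [div_eq_iff hs] at hb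
    linear_combination (-(γ * z s + δ)) * ha + (γ * z r + δ) * hb
  have qne : ∀ {r s : ℤ × ℤ} {a b : ℚ}, γ * z r + δ ≠ 0 → γ * z s + δ ≠ 0 →
      (α * z r + β) / (γ * z r + δ) = a → (α * z s + β) / (γ * z s + δ) = b → a = b → r = s := by
    intro r s a b hr hs ha hb hab
    have h := key hr hs ha hb
    rw [hab, sub_self, zero_mul] at h
    rcases mul_eq_zero.mp h.symm with h' | h'
    · exact absurd h' hdet
    · exact z_inj (by linarith)
  -- rational numbers `r`, `s`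
  set r : ℚ := (q - q2) * (q1 - q3) with hr
  set s : ℚ := (q - q3) * (q1 - q2) with hs
  have hx : (r : ℝ) * ((z p - z p3) * (z p1 - z p2)) = s * ((z p - z p2) * (z p1 - z p3)) := by
    have k1 := key n n2 e e2
    have k2 := key n1 n3 e1 e3
    have k3 := key n n3 e e3
    have k4 := key n1 n2 e1 e2
    have hΔ : ((α * δ - β * γ) * (α * δ - β * γ)) *
        ((r : ℝ) * ((z p - z p3) * (z p1 - z p2)) - s * ((z p - z p2) * (z p1 - z p3))) = 0 := by
      have e5 : ((α * δ - β * γ) * (α * δ - β * γ)) * ((r : ℝ) * ((z p - z p3) * (z p1 - z p2))) =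
          (r : ℝ) * (((α * δ - β * γ) * (z p - z p3)) * ((α * δ - β * γ) * (z p1 - z p2))) := by ring
      have e6 : ((α * δ - β * γ) * (α * δ - β * γ)) * ((s : ℝ) * ((z p - z p2) * (z p1 - z p3))) =
          (s : ℝ) * (((α * δ - β * γ) * (z p - z p2)) * ((α * δ - β * γ) * (z p1 - z p3))) := by ring
      rw [mul_sub, e5, e6, ← k1, ← k2, ← k3, ← k4, hr, hs]
      push_cast
      ring
    have h2 : (α * δ - β * γ) * (α * δ - β * γ) ≠ 0 := mul_ne_zero hdet hdet
    have := (mul_eq_zero.mp hΔ).resolve_left h2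
    linarith
  have hrs : r ≠ 0 ∨ s ≠ 0 := by
    by_contra hcon
    push Not at hcon
    obtain ⟨h1, h2⟩ := hcon
    have g13 : q1 - q3 ≠ 0 := fun h => h13 (qne n1 n3 e1 e3 (by linarith))
    have g12 : q1 - q2 ≠ 0 := fun h => h12 (qne n1 n2 e1 e2 (by linarith))
    have f1 : q - q2 = 0 := (mul_eq_zero.mp h1).resolve_right g13
    have f2 : q - q3 = 0 := (mul_eq_zero.mp h2).resolve_right g12
    exact h23 (qne n2 n3 e2 e3 (by linarith))
  have sq : Real.sqrt 2 * Real.sqrt 2 = 2 := Real.mul_self_sqrt (by norm_num)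
  set U0 : ℤ := (p.1 - p2.1) * (p1.1 - p3.1) + 2 * (p.2 - p2.2) * (p1.2 - p3.2) with hU0
  set V0 : ℤ := (p.1 - p2.1) * (p1.2 - p3.2) + (p.2 - p2.2) * (p1.1 - p3.1) with hV0
  set U1 : ℤ := (p.1 - p3.1) * (p1.1 - p2.1) + 2 * (p.2 - p3.2) * (p1.2 - p2.2) with hU1
  set V1 : ℤ := (p.1 - p3.1) * (p1.2 - p2.2) + (p.2 - p3.2) * (p1.1 - p2.1) with hV1
  have m0 : (z p - z p2) * (z p1 - z p3) = (U0 : ℝ) + V0 * Real.sqrt 2 := by
    rw [hU0, hV0]
    unfold z
    push_cast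
    linear_combination (((p.2 : ℝ) - p2.2) * ((p1.2 : ℝ) - p3.2)) * sq
  have m1 : (z p - z p3) * (z p1 - z p2) = (U1 : ℝ) + V1 * Real.sqrt 2 := by
    rw [hU1, hV1]
    unfold z
    push_cast
    linear_combination (((p.2 : ℝ) - p3.2) * ((p1.2 : ℝ) - p2.2)) * sq
  rw [m0, m1] at hx
  have h0 := lin (r * U1 - s * U0) (r * V1 - s * V0) (by push_cast; linarith)
  obtain ⟨a1, a2⟩ := h0
  have goal : (U0 : ℚ) * V1 = U1 * V0 := by
    rcases hrs with h | h
    · have : r * ((U0 : ℚ) * V1 - U1 * V0) = 0 := by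
        linear_combination U0 * a2 - V0 * a1
      have := (mul_eq_zero.mp this).resolve_left h
      linarith
    · have : s * ((U0 : ℚ) * V1 - U1 * V0) = 0 := by
        linear_combination U1 * a2 - V1 * a1
      have := (mul_eq_zero.mp this).resolve_left h
      linarith
  exact_mod_cast goal

/-- a Moebius transformation maps at most `2 K` of the `K ^ 2` numbers `a + b √2`, `0 ≤ a, b < K`,
to rational numbers, if it maps `S` to rational numbers -/
theorem card_mob {α β γ δ : ℝ} (hdet : α * δ - β * γ ≠ 0) {K : ℕ} {S : Finset (ℤ × ℤ)}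
    (hS : ∀ p ∈ S, 0 ≤ p.1 ∧ p.1 < K ∧ 0 ≤ p.2 ∧ p.2 < K)
    (hn : ∀ p ∈ S, γ * z p + δ ≠ 0)
    (hq : ∀ p ∈ S, ∃ q : ℚ, (α * z p + β) / (γ * z p + δ) = q) : S.card ≤ 2 * K := by
  classical
  by_cases h : ∀ p1 ∈ S, ∀ p2 ∈ S, ∀ p3 ∈ S,
      (p1.1 - p3.1) * (p1.2 - p2.2) - (p1.2 - p3.2) * (p1.1 - p2.1) = 0
  · exact card_line hS h
  push Not at h
  obtain ⟨p1, hp1, p2, hp2, p3, hp3, hD⟩ := h
  set D := (p1.1 - p3.1) * (p1.2 - p2.2) - (p1.2 - p3.2) * (p1.1 - p2.1) with hDdef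
  have h12 : p1 ≠ p2 := by rintro rfl; apply hD; rw [hDdef]; ring
  have h13 : p1 ≠ p3 := by rintro rfl; apply hD; rw [hDdef]; ring
  have h23 : p2 ≠ p3 := by rintro rfl; apply hD; rw [hDdef]; ring
  obtain ⟨q1, e1⟩ := hq p1 hp1
  obtain ⟨q2, e2⟩ := hq p2 hp2
  obtain ⟨q3, e3⟩ := hq p3 hp3
  have hE : ∀ p ∈ S, ((p.1 - p2.1) * (p1.1 - p3.1) + 2 * (p.2 - p2.2) * (p1.2 - p3.2)) *
        ((p.1 - p3.1) * (p1.2 - p2.2) + (p.2 - p3.2) * (p1.1 - p2.1)) =
      ((p.1 - p3.1) * (p1.1 - p2.1) + 2 * (p.2 - p3.2) * (p1.2 - p2.2)) *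
        ((p.1 - p2.1) * (p1.2 - p3.2) + (p.2 - p2.2) * (p1.1 - p3.1)) := by
    intro p hp
    obtain ⟨q, e⟩ := hq p hp
    exact quad hdet (hn p hp) (hn p1 hp1) (hn p2 hp2) (hn p3 hp3) e e1 e2 e3 h12 h13 h23
  have h5 : S.card ≤ 2 * (Finset.Ico (0 : ℤ) K).card := by
    refine Finset.card_le_mul_card_image_of_maps_to (f := fun p : ℤ × ℤ => p.2) ?_ 2 ?_
    · intro p hp
      have := hS p hp
      simp only [Finset.mem_Ico]
      omega
    · intro b _
      by_contra hcon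
      push Not at hcon
      obtain ⟨x, hx, y, hy, w, hw, hxy, hxw, hyw⟩ := Finset.two_lt_card.mp hcon
      simp only [Finset.mem_filter] at hx hy hw
      have fx := hE x hx.1
      have fy := hE y hy.1
      have fw := hE w hw.1
      rw [hx.2] at fx
      rw [hy.2] at fy
      rw [hw.2] at fw
      have gxy : x.1 - y.1 ≠ 0 := fun h => hxy (Prod.ext (by omega) (by rw [hx.2, hy.2]))
      have gxw : x.1 - w.1 ≠ 0 := fun h => hxw (Prod.ext (by omega) (by rw [hx.2, hw.2]))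
      have gyw : y.1 - w.1 ≠ 0 := fun h => hyw (Prod.ext (by omega) (by rw [hy.2, hw.2]))
      -- second difference of a quadratic polynomial with leading coefficient `D`
      have hsd : D * ((x.1 - y.1) * ((x.1 - w.1) * (y.1 - w.1))) = 0 := by
        rw [hDdef]
        linear_combination (y.1 - w.1) * fx - (x.1 - w.1) * fy + (x.1 - y.1) * fw
      have := mul_ne_zero hD (mul_ne_zero gxy (mul_ne_zero gxw gyw))
      exact this hsd
  rw [Int.card_Ico] at h5
  simpa using h5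

end Pool.Agent.U209.SZ
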