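import Pool.Agent.U209.SZ.A

/-!
# Boxes of `ℤ[√2]` on a line of the plane and projective transformations
-/

set_option autoImplicit false

open Finset

namespace Pool.Agent.U209.SZ

theorem card_vec {M : Matrix (Fin 3) (Fin 3) ℝ} (hM : M.det ≠ 0) {u v : Fin 3 → ℝ}
    (hl : ∀ c d : ℝ, c • v + d • u = 0 → c = 0 ∧ d = 0) {K : ℕ} {S : Finset (ℤ × ℤ)}
    (hS : ∀ p ∈ S, 0 ≤ p.1 ∧ p.1 < K ∧ 0 ≤ p.2 ∧ p.2 < K)
    (hn : ∀ p ∈ S, M.mulVec (z p • v + u) 2 ≠ 0)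
    (h0 : ∀ p ∈ S, ∃ q : ℚ, M.mulVec (z p • v + u) 0 / M.mulVec (z p • v + u) 2 = q)
    (h1 : ∀ p ∈ S, ∃ q : ℚ, M.mulVec (z p • v + u) 1 / M.mulVec (z p • v + u) 2 = q) :
    S.card ≤ 2 * K := by
  have hw : ∀ (t : ℝ) (i : Fin 3), M.mulVec (t • v + u) i =
      (M.mulVec v i) * t + M.mulVec u i := by
    intro t i
    rw [Matrix.mulVec_add, Matrix.mulVec_smul, Pi.add_apply, Pi.smul_apply, smul_eq_mul]
    ring
  by_cases c0 : M.mulVec v 0 * M.mulVec u 2 - M.mulVec u 0 * M.mulVec v 2 = 0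
  · by_cases c1 : M.mulVec v 1 * M.mulVec u 2 - M.mulVec u 1 * M.mulVec v 2 = 0
    · -- degenerate
      rcases S.eq_empty_or_nonempty with rfl | ⟨p, hp⟩
      · simp
      exfalso
      have hz : M.mulVec ((M.mulVec u 2) • v + (-(M.mulVec v 2)) • u) = 0 := by
        rw [Matrix.mulVec_add, Matrix.mulVec_smul, Matrix.mulVec_smul]
        funext i
        simp only [Pi.add_apply, Pi.smul_apply, smul_eq_mul, Pi.zero_apply]
        fin_cases i
        · simp only [Fin.zero_eta]; linarith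
        · simp only [Fin.mk_one]; linarith
        · simp only [Fin.reduceFinMk]; ring
      have hz2 : (M.mulVec u 2) • v + (-(M.mulVec v 2)) • u = 0 := by
        by_contra hne
        exact hM (Matrix.exists_mulVec_eq_zero_iff.mp ⟨_, hne, hz⟩)
      obtain ⟨a1, a2⟩ := hl _ _ hz2
      have := hn p hp
      rw [hw, a1, neg_eq_zero.mp a2] at this
      simp at this
    · refine card_mob (α := M.mulVec v 1) (β := M.mulVec u 1) (γ := M.mulVec v 2)
        (δ := M.mulVec u 2) c1 hS ?_ ?_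
      · intro p hp
        rw [← hw]
        exact hn p hp
      · intro p hp
        rw [← hw, ← hw]
        exact h1 p hp
  · refine card_mob (α := M.mulVec v 0) (β := M.mulVec u 0) (γ := M.mulVec v 2)
      (δ := M.mulVec u 2) c0 hS ?_ ?_
    · intro p hp
      rw [← hw]
      exact hn p hp
    · intro p hp
      rw [← hw, ← hw]
      exact h0 p hp

/-- the numbers `a + b √2`, `0 ≤ a, b < K`, as a finite set of integer pairs -/
noncomputable def box (K : ℕ) : Finset (ℤ × ℤ) := (Ico (0 : ℤ) K) ×ˢ (Ico (0 : ℤ) K)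

theorem mem_box {K : ℕ} {p : ℤ × ℤ} : p ∈ box K ↔ 0 ≤ p.1 ∧ p.1 < K ∧ 0 ≤ p.2 ∧ p.2 < K := by
  simp only [box, mem_product, mem_Ico]
  tauto

theorem card_box (K : ℕ) : (box K).card = K ^ 2 := by
  rw [box, card_product, Int.card_Ico, sq]
  simp

/-- the set of the numbers `a + b √2`, `0 ≤ a, b < K` -/
noncomputable def G (K : ℕ) : Finset ℝ := (box K).image z

theorem card_G (K : ℕ) : (G K).card = K ^ 2 := by
  rw [G, card_image_of_injective _ (fun _ _ h => z_inj h), card_box]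

/-- products and sums of elements of the sets `G` -/
theorem mul_add_mem {k : ℕ} {s x t : ℝ} (hs : s ∈ G k) (hx : x ∈ G k) (ht : t ∈ G (k ^ 2)) :
    s * x + t ∈ G (4 * k ^ 2) := by
  simp only [G, mem_image, mem_box] at hs hx ht ⊢
  obtain ⟨a, ⟨a1, a2, a3, a4⟩, rfl⟩ := hs
  obtain ⟨b, ⟨b1, b2, b3, b4⟩, rfl⟩ := hx
  obtain ⟨c, ⟨c1, c2, c3, c4⟩, rfl⟩ := ht
  have sq2 : Real.sqrt 2 * Real.sqrt 2 = 2 := Real.mul_self_sqrt (by norm_num)
  push_cast at c2 c4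
  have d1 : a.1 * b.1 ≤ (k : ℤ) ^ 2 := by nlinarith
  have d2 : a.2 * b.2 ≤ (k : ℤ) ^ 2 := by nlinarith
  have d3 : a.1 * b.2 ≤ (k : ℤ) ^ 2 := by nlinarith
  have d4 : a.2 * b.1 ≤ (k : ℤ) ^ 2 := by nlinarith
  have f1 : 0 ≤ a.1 * b.1 := mul_nonneg a1 b1
  have f2 : 0 ≤ a.2 * b.2 := mul_nonneg a3 b3
  have f3 : 0 ≤ a.1 * b.2 := mul_nonneg a1 b3
  have f4 : 0 ≤ a.2 * b.1 := mul_nonneg a3 b1
  refine ⟨(a.1 * b.1 + 2 * (a.2 * b.2) + c.1, a.1 * b.2 + a.2 * b.1 + c.2), ⟨?_, ?_, ?_, ?_⟩, ?_⟩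
  · positivity
  · push_cast
    linarith
  · positivity
  · push_cast
    linarith
  · unfold z
    push_cast
    linear_combination (-(a.2 : ℝ) * b.2) * sq2

end Pool.Agent.U209.SZ
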